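import Pool.Agent.helper54.V3.SpecE

set_option autoImplicit false

open Complex Metric Set Filter Topology MeasureTheory

noncomputable section

namespace V3

/-- `chi` depends only on the values on the curves. -/
theorem CHI_congr (m : ℕ) (γ : ℕ → ℝ → ℂ) (f g : ℂ → ℂ)
    (h : ∀ j < m, ∀ s ∈ Icc (0 : ℝ) 1, f (γ j s) = g (γ j s)) : chi m γ f = chi m γ g := by
  unfold chi
  refine Finset.sum_congr rfl fun j hj => ?_
  refine intervalIntegral.integral_congr fun s hs => ?_
  rw [uIcc_of_le zero_le_one] at hs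
  rw [h j (Finset.mem_range.1 hj) s hs]

theorem CHI_int (m : ℕ) (γ : ℕ → ℝ → ℂ) (hγ : Chain m γ) (f : ℂ → ℂ) (j : ℕ) (hj : j < m)
    (hf : ContinuousOn (fun s => f (γ j s)) (Icc 0 1)) :
    IntervalIntegrable (fun s => f (γ j s) * derivWithin (γ j) (Icc 0 1) s) volume 0 1 := by
  apply ContinuousOn.intervalIntegrable
  rw [uIcc_of_le zero_le_one]
  exact hf.mul ((hγ.c1 j hj).continuousOn_derivWithin (uniqueDiffOn_Icc zero_lt_one) le_rfl)

theorem CHI_smul (m : ℕ) (γ : ℕ → ℝ → ℂ) (c : ℂ) (f : ℂ → ℂ) :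
    chi m γ (fun z => c * f z) = c * chi m γ f := by
  unfold chi
  rw [Finset.mul_sum]
  refine Finset.sum_congr rfl fun j hj => ?_
  rw [← intervalIntegral.integral_const_mul]
  refine intervalIntegral.integral_congr fun s _ => ?_
  simp only
  ring

theorem CHI_add (m : ℕ) (γ : ℕ → ℝ → ℂ) (hγ : Chain m γ) (f g : ℂ → ℂ)
    (hf : ∀ j < m, ContinuousOn (fun s => f (γ j s)) (Icc 0 1))
    (hg : ∀ j < m, ContinuousOn (fun s => g (γ j s)) (Icc 0 1)) :
    chi m γ (fun z => f z + g z) = chi m γ f + chi m γ g := by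
  unfold chi
  rw [← Finset.sum_add_distrib]
  refine Finset.sum_congr rfl fun j hj => ?_
  have hj' := Finset.mem_range.1 hj
  rw [← intervalIntegral.integral_add (CHI_int m γ hγ f j hj' (hf j hj'))
    (CHI_int m γ hγ g j hj' (hg j hj'))]
  refine intervalIntegral.integral_congr fun s _ => ?_
  simp only
  ring

theorem CHI_sum (m : ℕ) (γ : ℕ → ℝ → ℂ) (hγ : Chain m γ) (S : Finset ℂ) (f : ℂ → ℂ → ℂ)
    (hf : ∀ a ∈ S, ∀ j < m, ContinuousOn (fun s => f a (γ j s)) (Icc 0 1)) :
    chi m γ (fun z => ∑ a ∈ S, f a z) = ∑ a ∈ S, chi m γ (f a) := by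
  unfold chi
  rw [Finset.sum_comm]
  refine Finset.sum_congr rfl fun j hj => ?_
  have hj' := Finset.mem_range.1 hj
  rw [← intervalIntegral.integral_finsetSum
    (fun a ha => CHI_int m γ hγ (f a) j hj' (hf a ha j hj'))]
  refine intervalIntegral.integral_congr fun s _ => ?_
  simp only
  rw [Finset.sum_mul]

theorem CHI (hCHP : CHP_stmt) (hCHF : CHF_stmt) : CHI_stmt := by
  intro m γ F v Q Z κ w hγ hv hcur hZ1 hZ2 hw
  have hγc : ∀ j < m, ContinuousOn (γ j) (Icc 0 1) := fun j hj => (hγ.c1 j hj).continuousOn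
  -- points on the curves are no zeros of v
  have hne : ∀ a : ℂ, v.eval a = 0 → ∀ j < m, ∀ s ∈ Icc (0 : ℝ) 1, γ j s - a ≠ 0 := by
    intro a ha j hj s hs h0
    apply (hcur j hj s hs).2
    rw [sub_eq_zero.1 h0, ha]
  have hcont : ∀ a : ℂ, v.eval a = 0 → ∀ j < m,
      ContinuousOn (fun s => 1 / (γ j s - a)) (Icc 0 1) := by
    intro a ha j hj
    exact continuousOn_const.div ((hγc j hj).sub continuousOn_const) (hne a ha j hj)
  have hZv : ∀ a ∈ Z, v.eval a = 0 := by
    intro a ha
    have h1 : 0 < v.rootMultiplicity a := by rw [hZ1 a ha]; exact one_pos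
    exact (Polynomial.rootMultiplicity_pos hv).1 h1
  -- the left side
  have hL : chi m γ w = κ * ∑ a ∈ Z, chi m γ (fun z => 1 / (z - a)) := by
    rw [CHI_congr m γ w (fun z => κ * (∑ a ∈ Z, 1 / (z - a)) + Q.eval z)]
    · rw [CHI_add m γ hγ (fun z => κ * (∑ a ∈ Z, 1 / (z - a))) (fun z => Q.eval z), CHI_smul,
        CHI_sum m γ hγ Z (fun a z => 1 / (z - a)), hCHP m γ Q hγ, add_zero]
      · intro a ha j hj
        exact hcont a (hZv a ha) j hj
      · intro j hj
        refine continuousOn_const.mul ?_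
        exact continuousOn_finsetSum _ fun a ha => hcont a (hZv a ha) j hj
      · intro j hj
        exact Q.continuous.comp_continuousOn (hγc j hj)
    · intro j hj s hs
      apply hw
      intro hmem
      exact (hcur j hj s hs).2 (hZv _ hmem)
  -- the right side
  have hR : chi m γ (fun z => v.derivative.eval z / v.eval z) =
      ∑ a ∈ v.roots.toFinset, (v.rootMultiplicity a : ℂ) * chi m γ (fun z => 1 / (z - a)) := by
    rw [CHI_congr m γ (fun z => v.derivative.eval z / v.eval z)
      (fun z => ∑ a ∈ v.roots.toFinset, (v.rootMultiplicity a : ℂ) * (1 / (z - a)))]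
    · rw [CHI_sum m γ hγ _ (fun a z => (v.rootMultiplicity a : ℂ) * (1 / (z - a)))]
      · exact Finset.sum_congr rfl fun a _ => CHI_smul m γ _ _
      · intro a ha j hj
        have ha' : v.eval a = 0 := by
          rw [Multiset.mem_toFinset, Polynomial.mem_roots hv] at ha
          exact ha
        exact continuousOn_const.mul (hcont a ha' j hj)
    · intro j hj s hs
      rw [(IsAlgClosed.splits v).eval_derivative_div_eval_of_ne_zero (hcur j hj s hs).2]
      rw [Finset.sum_multiset_map_count]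
      refine Finset.sum_congr rfl fun a _ => ?_
      rw [Polynomial.count_roots, nsmul_eq_mul]
  rw [hL, hR]
  congr 1
  have hsub : Z ⊆ v.roots.toFinset := by
    intro a ha
    rw [Multiset.mem_toFinset, Polynomial.mem_roots hv]
    exact hZv a ha
  rw [← Finset.sum_subset hsub]
  · refine Finset.sum_congr rfl fun a ha => ?_
    rw [hZ1 a ha, Nat.cast_one, one_mul]
  · intro a ha haZ
    rw [Multiset.mem_toFinset, Polynomial.mem_roots hv] at ha
    rw [hCHF m γ F a hγ (fun j hj s hs => (hcur j hj s hs).1) (hZ2 a haZ ha), mul_zero]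

end V3
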